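import Pool.Agent.V11238.MG.Complete

/-!
# Complete monster groups are not of types (2), (3), (4)
-/

set_option autoImplicit false

open Subgroup Pool.Agent.V11238.MG

namespace Pool.Agent.Results.MP_65b575_al.CompleteMonsters

/-- Property (2): bounded exponent. -/
def Two (G : Type) [Group G] : Prop := ∃ m : ℕ, 1 ≤ m ∧ ∀ g : G, g ^ m = 1

/-- Property (3): not cyclic, every proper subgroup is cyclic. -/
def Three (G : Type) [Group G] : Prop :=
  ¬ IsCyclic G ∧ ∀ H : Subgroup G, H ≠ ⊤ → IsCyclic H

/-- Property (4): for some prime `p` every nontrivial proper subgroup is cyclic of order `p`. -/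
def Four (G : Type) [Group G] : Prop :=
  ∃ p : ℕ, p.Prime ∧ ∀ H : Subgroup G, H ≠ ⊥ → H ≠ ⊤ → IsCyclic H ∧ Nat.card H = p

/-- Property (5): every element has roots of all orders. -/
def Five (G : Type) [Group G] : Prop := ∀ (g : G) (m : ℕ), 1 ≤ m → ∃ h : G, h ^ m = g

/-- A finitely generated infinite group with property (5) has none of the properties (2), (3),
(4). -/
theorem result (G : Type) [Group G] [Group.FG G] [Infinite G] (h : Five G) :
    ¬ Two G ∧ ¬ Three G ∧ ¬ Four G := by
  refine ⟨?_, fun h3 => three_not_complete h3.1 h3.2 h, ?_⟩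
  · rintro ⟨m, hm, h2⟩
    obtain ⟨g, hg⟩ := exists_ne (1 : G)
    obtain ⟨x, hx⟩ := h g m hm
    exact hg (by rw [← hx, h2])
  · rintro ⟨p, hp, h4⟩
    exact three_not_complete (four_not_cyclic hp h4) (four_cyclic h4) h

end Pool.Agent.Results.MP_65b575_al.CompleteMonsters
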