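import Pool.Agent.V11238.MG.Growth

/-!
# Monster groups of type (6) have finite exponent or exponential growth
-/

set_option autoImplicit false

open Subgroup Pool.Agent.V11238.MG

namespace Pool.Agent.Results.MP_65b575_al.ConjGrowth

/-- Property (2): bounded exponent. -/
def Two (G : Type) [Group G] : Prop := ∃ m : ℕ, 1 ≤ m ∧ ∀ g : G, g ^ m = 1

/-- Property (6): finitely many conjugacy classes. -/
def Six (G : Type) [Group G] : Prop := Finite (ConjClasses G)

/-- Property (7): intermediate growth for some finite generating set. -/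
def Seven (G : Type) [Group G] : Prop :=
  ∃ S : Set G, S.Finite ∧ closure S = ⊤ ∧
    (∀ C d : ℕ, ∃ r : ℕ, C * (r + 1) ^ d < growth S r) ∧
    (∀ c : ℝ, 0 < c → ∃ r : ℕ, (growth S r : ℝ) < Real.exp (c * r))

/-- Property (6) implies property (2) or exponential growth for every finite generating set;
so (6) and (7) together imply (2). -/
theorem result :
    (∀ (G : Type) [Group G], Six G → Two G ∨
      ∀ S : Set G, S.Finite → closure S = ⊤ →
        ∃ c : ℝ, 0 < c ∧ ∀ r : ℕ, Real.exp (c * r) ≤ growth S r) ∧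
    ∀ (G : Type) [Group G], Six G → Seven G → Two G := by
  have h1 : ∀ (G : Type) [Group G], Six G → Two G ∨
      ∀ S : Set G, S.Finite → closure S = ⊤ →
        ∃ c : ℝ, 0 < c ∧ ∀ r : ℕ, Real.exp (c * r) ≤ growth S r := by
    intro G _ h
    have h' : Finite (ConjClasses G) := h
    exact six_growth
  refine ⟨h1, ?_⟩
  rintro G _ h ⟨S, hS, hgen, -, h7⟩
  rcases h1 G h with h2 | h2
  · exact h2
  · obtain ⟨c, hc, h3⟩ := h2 S hS hgen
    obtain ⟨r, hr⟩ := h7 c hc
    exact absurd (h3 r) (not_le.2 hr)

end Pool.Agent.Results.MP_65b575_al.ConjGrowth
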