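import Pool.Agent.V11238.MG.Extra

/-!
# Finitely presented monster groups of types (3), (4) and (6) have decidable word problem
-/

set_option autoImplicit false

open Subgroup Pool.Agent.V11238.MG

namespace Pool.Agent.Results.MP_65b575_al.DecidableMonsters

/-- Property (3): not cyclic, every proper subgroup is cyclic. -/
def Three (G : Type) [Group G] : Prop :=
  ¬ IsCyclic G ∧ ∀ H : Subgroup G, H ≠ ⊤ → IsCyclic H

/-- Property (4): for some prime `p` every nontrivial proper subgroup is cyclic of order `p`. -/
def Four (G : Type) [Group G] : Prop :=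
  ∃ p : ℕ, p.Prime ∧ ∀ H : Subgroup G, H ≠ ⊥ → H ≠ ⊤ → IsCyclic H ∧ Nat.card H = p

/-- Property (6): finitely many conjugacy classes. -/
def Six (G : Type) [Group G] : Prop := Finite (ConjClasses G)

/-- `φ` is a finite presentation of `G`: it is onto, and its kernel is the normal closure of
finitely many elements. -/
def IsFinPres {G : Type} [Group G] {n : ℕ} (φ : FreeGroup (Fin n) →* G) : Prop :=
  Function.Surjective φ ∧ φ.ker.IsFinitelyNormallyGenerated

/-- For every finite presentation of `G` the word problem is decidable. -/
def WordDecidable (G : Type) [Group G] : Prop :=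
  ∀ (n : ℕ) (φ : FreeGroup (Fin n) →* G), IsFinPres φ →
    ComputablePred fun w : List (Fin n × Bool) => φ (FreeGroup.mk w) = 1

/-- For every finite presentation of `G` the conjugacy problem is decidable. -/
def ConjDecidable (G : Type) [Group G] : Prop :=
  ∀ (n : ℕ) (φ : FreeGroup (Fin n) →* G), IsFinPres φ →
    ComputablePred fun x : List (Fin n × Bool) × List (Fin n × Bool) =>
      IsConj (φ (FreeGroup.mk x.1)) (φ (FreeGroup.mk x.2))

theorem three_word (G : Type) [Group G] [Infinite G] (h : Three G) : WordDecidable G := by
  rintro n φ ⟨hφ, hker⟩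
  have hfg : Group.FG G := Group.fg_of_surjective hφ
  exact word_computable φ hφ hker (fun N _ hne => normal_central h.2 (N := N) hne)
    (h.2 _ (center_ne_top h.1 h.2)) (center_ne_top h.1 h.2)

theorem result :
    (∀ (G : Type) [Group G] [Infinite G], Three G → WordDecidable G) ∧
    (∀ (G : Type) [Group G] [Infinite G], Four G → WordDecidable G) ∧
    (∀ (G : Type) [Group G], Six G → WordDecidable G ∧ ConjDecidable G) := by
  refine ⟨fun G _ _ h => three_word G h, fun G _ _ h => ?_, fun G _ h => ⟨?_, ?_⟩⟩
  · rintro n φ ⟨hφ, hker⟩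
    have hfg : Group.FG G := Group.fg_of_surjective hφ
    obtain ⟨p, hp, h⟩ := h
    exact three_word G ⟨four_not_cyclic hp h, four_cyclic h⟩ n φ ⟨hφ, hker⟩
  · rintro n φ ⟨hφ, hker⟩
    have h' : Finite (ConjClasses G) := h
    exact word_of_conj φ (conj_computable φ hφ hker)
  · rintro n φ ⟨hφ, hker⟩
    have h' : Finite (ConjClasses G) := h
    exact conj_computable φ hφ hker

end Pool.Agent.Results.MP_65b575_al.DecidableMonsters
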