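import Pool.Agent.V11238.MG.Extra

/-!
# Finitely presented monster groups of types (3), (4) and (6): reduction to simple groups
-/

set_option autoImplicit false

open Subgroup Pool.Agent.V11238.MG

namespace Pool.Agent.Results.MP_65b575_al.SimpleMonsters

/-- Property (2): bounded exponent. -/
def Two (G : Type) [Group G] : Prop := ∃ m : ℕ, 1 ≤ m ∧ ∀ g : G, g ^ m = 1

/-- Property (3): not cyclic, every proper subgroup is cyclic. -/
def Three (G : Type) [Group G] : Prop :=
  ¬ IsCyclic G ∧ ∀ H : Subgroup G, H ≠ ⊤ → IsCyclic H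

/-- Property (4): for some prime `p` every nontrivial proper subgroup is cyclic of order `p`. -/
def Four (G : Type) [Group G] : Prop :=
  ∃ p : ℕ, p.Prime ∧ ∀ H : Subgroup G, H ≠ ⊥ → H ≠ ⊤ → IsCyclic H ∧ Nat.card H = p

/-- Property (6): finitely many conjugacy classes. -/
def Six (G : Type) [Group G] : Prop := Finite (ConjClasses G)

/-- There is an infinite finitely presented group with property `P`. -/
def FPMonster (P : ∀ (G : Type) [Group G], Prop) : Prop :=
  ∃ (G : Type) (_ : Group G), Group.IsFinitelyPresented G ∧ Infinite G ∧ P G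

/-- There is an infinite finitely presented simple group with property `P`. -/
def SimpleFPMonster (P : ∀ (G : Type) [Group G], Prop) : Prop :=
  ∃ (G : Type) (_ : Group G), Group.IsFinitelyPresented G ∧ Infinite G ∧ IsSimpleGroup G ∧ P G

theorem fg_of_fp (G : Type) [Group G] (h : Group.IsFinitelyPresented G) : Group.FG G := by
  obtain ⟨n, φ, hφ, -⟩ := h
  exact Group.fg_of_surjective hφ

/-- Type (3): every proper normal subgroup is central and the central quotient is a simple monster
of type (3), finitely presented if the group is. -/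
theorem three_main (G : Type) [Group G] [Group.FG G] [Infinite G] (h : Three G) :
    (∀ N : Subgroup G, N.Normal → N ≠ ⊤ → N ≤ center G) ∧
    IsSimpleGroup (G ⧸ center G) ∧ Infinite (G ⧸ center G) ∧ Three (G ⧸ center G) ∧
    (Group.IsFinitelyPresented G → Group.IsFinitelyPresented (G ⧸ center G)) :=
  ⟨fun N _ hne => normal_central h.2 (N := N) hne, simple_quot h.1 h.2, infinite_quot h.1 h.2,
    ⟨not_cyclic_quot h.1 h.2, cyclic_proper_quot h.2⟩, fp_quot h.1 h.2⟩

/-- Type (4): the group is simple and also of types (2) and (3). -/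
theorem four_main (G : Type) [Group G] [Group.FG G] [Infinite G] (h : Four G) :
    IsSimpleGroup G ∧ Two G ∧ Three G := by
  obtain ⟨p, hp, h⟩ := h
  exact ⟨four_simple hp h, ⟨p, hp.one_le, four_pow hp h⟩, ⟨four_not_cyclic hp h, four_cyclic h⟩⟩

/-- Type (6): the finite residual has finite index and no proper subgroup of finite index; it has a
simple quotient and all its simple quotients are finitely presented monsters of type (6). -/
theorem six_main (G : Type) [Group G] [Infinite G] (hfp : Group.IsFinitelyPresented G)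
    (hc : Six G) :
    (resid G).FiniteIndex ∧ (∀ H : Subgroup (resid G), H.FiniteIndex → H = ⊤) ∧
    (∃ (K : Subgroup (resid G)) (_ : K.Normal), IsSimpleGroup (resid G ⧸ K)) ∧
    (∀ (K : Subgroup (resid G)) [K.Normal], IsSimpleGroup (resid G ⧸ K) →
      Infinite (resid G ⧸ K) ∧ Group.IsFinitelyPresented (resid G ⧸ K) ∧ Six (resid G ⧸ K)) := by
  have hc' : Finite (ConjClasses G) := hc
  exact conj_main (G := G)

theorem result :
    (∀ (G : Type) [Group G] [Group.FG G] [Infinite G], Three G →
      (∀ N : Subgroup G, N.Normal → N ≠ ⊤ → N ≤ center G) ∧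
      IsSimpleGroup (G ⧸ center G) ∧ Infinite (G ⧸ center G) ∧ Three (G ⧸ center G) ∧
      (Group.IsFinitelyPresented G → Group.IsFinitelyPresented (G ⧸ center G))) ∧
    (∀ (G : Type) [Group G] [Group.FG G] [Infinite G], Four G →
      IsSimpleGroup G ∧ Two G ∧ Three G) ∧
    (∀ (G : Type) [Group G] [Infinite G], Group.IsFinitelyPresented G → Six G →
      (resid G).FiniteIndex ∧ (∀ H : Subgroup (resid G), H.FiniteIndex → H = ⊤) ∧
      (∃ (K : Subgroup (resid G)) (_ : K.Normal), IsSimpleGroup (resid G ⧸ K)) ∧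
      (∀ (K : Subgroup (resid G)) [K.Normal], IsSimpleGroup (resid G ⧸ K) →
        Infinite (resid G ⧸ K) ∧ Group.IsFinitelyPresented (resid G ⧸ K) ∧
          Six (resid G ⧸ K))) ∧
    (FPMonster @Three ↔ SimpleFPMonster @Three) ∧
    (FPMonster @Four ↔ SimpleFPMonster @Four) ∧
    (FPMonster @Six ↔ SimpleFPMonster @Six) := by
  refine ⟨fun G _ _ _ h => three_main G h, fun G _ _ _ h => four_main G h,
    fun G _ _ hfp h => six_main G hfp h, ⟨?_, ?_⟩, ⟨?_, ?_⟩, ⟨?_, ?_⟩⟩
  · rintro ⟨G, _, hfp, hinf, h⟩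
    have := fg_of_fp G hfp
    obtain ⟨-, h1, h2, h3, h5⟩ := three_main G h
    exact ⟨G ⧸ center G, inferInstance, h5 hfp, h2, h1, h3⟩
  · rintro ⟨G, _, hfp, hinf, -, h⟩
    exact ⟨G, _, hfp, hinf, h⟩
  · rintro ⟨G, _, hfp, hinf, h⟩
    have := fg_of_fp G hfp
    exact ⟨G, _, hfp, hinf, (four_main G h).1, h⟩
  · rintro ⟨G, _, hfp, hinf, -, h⟩
    exact ⟨G, _, hfp, hinf, h⟩
  · rintro ⟨G, _, hfp, hinf, h⟩
    obtain ⟨-, -, ⟨K, hK, hs⟩, h5⟩ := six_main G hfp h
    obtain ⟨h7, h8, h9⟩ := h5 K hs
    exact ⟨resid G ⧸ K, inferInstance, h8, h7, hs, h9⟩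
  · rintro ⟨G, _, hfp, hinf, -, h⟩
    exact ⟨G, _, hfp, hinf, h⟩

end Pool.Agent.Results.MP_65b575_al.SimpleMonsters
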